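import Pool.Agent.W856.SV.Stms

/-! SV-CF1: decay of the characteristic function (MP_b26df8_pr). -/

set_option autoImplicit false

namespace Pool.Agent.W880.SV

open MeasureTheory Pool.Agent.W856.SV
open scoped ENNReal

/-- the set of points near the zeros of `1 - cos (t x - θ)` is small -/
theorem vol_bad (t θ η : ℝ) (ht : t ≠ 0) (hη : 0 ≤ η) :
    volume {x : ℝ | |x| ≤ 2 ∧ ∃ m : ℤ, |t * x - θ - 2 * Real.pi * m| < η} ≤
      ENNReal.ofReal (((4 * |t| + 2 * η) / (2 * Real.pi) + 1) * (2 * (η / |t|))) := by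
  have hpi := Real.pi_pos
  have h2pi : 0 < 2 * Real.pi := by positivity
  have ht0 : 0 < |t| := abs_pos.2 ht
  set a : ℤ := ⌈(-(2 * |t| + η) - θ) / (2 * Real.pi)⌉ with ha
  set b : ℤ := ⌊((2 * |t| + η) - θ) / (2 * Real.pi)⌋ with hb
  have hsub : {x : ℝ | |x| ≤ 2 ∧ ∃ m : ℤ, |t * x - θ - 2 * Real.pi * m| < η} ⊆
      ⋃ m ∈ Finset.Icc a b, Metric.ball ((θ + 2 * Real.pi * m) / t) (η / |t|) := by
    rintro x ⟨hx, m, hm⟩
    have h1 : |t * x| ≤ 2 * |t| := by
      rw [abs_mul]
      nlinarith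
    have h2 := (abs_lt.1 hm)
    have h3 := (abs_le.1 h1)
    have hma : a ≤ m := by
      rw [ha, Int.ceil_le, div_le_iff₀ h2pi]
      linarith
    have hmb : m ≤ b := by
      rw [hb, Int.le_floor, le_div_iff₀ h2pi]
      linarith
    rw [Set.mem_iUnion₂]
    refine ⟨m, Finset.mem_Icc.2 ⟨hma, hmb⟩, ?_⟩
    rw [Metric.mem_ball, Real.dist_eq]
    have h4 : x - (θ + 2 * Real.pi * m) / t = (t * x - θ - 2 * Real.pi * m) / t := by
      field_simp
      ring
    rw [h4, abs_div]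
    exact (div_lt_div_iff_of_pos_right ht0).2 hm
  refine (measure_mono hsub).trans ?_
  refine (measure_biUnion_finset_le _ _).trans ?_
  simp_rw [Real.volume_ball]
  rw [Finset.sum_const, nsmul_eq_mul, Int.card_Icc]
  have hcard : (((b + 1 - a).toNat : ℕ) : ℝ) ≤ (4 * |t| + 2 * η) / (2 * Real.pi) + 1 := by
    have h1 : (b : ℝ) ≤ ((2 * |t| + η) - θ) / (2 * Real.pi) := Int.floor_le _
    have h2 : (-(2 * |t| + η) - θ) / (2 * Real.pi) ≤ (a : ℝ) := Int.le_ceil _
    have h3 : ((2 * |t| + η) - θ) / (2 * Real.pi) - (-(2 * |t| + η) - θ) / (2 * Real.pi) =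
        (4 * |t| + 2 * η) / (2 * Real.pi) := by
      ring
    have h4 : (((b + 1 - a).toNat : ℤ) : ℝ) = ((max (b + 1 - a) 0 : ℤ) : ℝ) := by
      rw [Int.toNat_eq_max]
    have h5 : (((b + 1 - a).toNat : ℕ) : ℝ) = max ((b : ℝ) + 1 - a) 0 := by
      have : (((b + 1 - a).toNat : ℕ) : ℝ) = (((b + 1 - a).toNat : ℤ) : ℝ) := by norm_cast
      rw [this, h4]
      push_cast
      rfl
    rw [h5, max_le_iff]
    constructor
    · linarith
    · positivity
  rw [← ENNReal.ofReal_natCast, ← ENNReal.ofReal_mul (Nat.cast_nonneg _)]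
  apply ENNReal.ofReal_le_ofReal
  apply mul_le_mul_of_nonneg_right hcard
  positivity

theorem one_sub_cos_ge (u η : ℝ) (hη : 0 ≤ η)
    (h : ∀ m : ℤ, η ≤ |u - 2 * Real.pi * m|) : 2 / Real.pi ^ 2 * η ^ 2 ≤ 1 - Real.cos u := by
  have hpi := Real.pi_pos
  set m : ℤ := round (u / (2 * Real.pi)) with hm
  have h1 : |u / (2 * Real.pi) - m| ≤ 1 / 2 := abs_sub_round _
  have h2 : |u - 2 * Real.pi * m| ≤ Real.pi := by
    have h3 : u - 2 * Real.pi * m = (2 * Real.pi) * (u / (2 * Real.pi) - m) := by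
      field_simp
    rw [h3, abs_mul, abs_of_pos (by positivity : (0 : ℝ) < 2 * Real.pi)]
    nlinarith
  have h3 := Real.cos_le_one_sub_mul_cos_sq h2
  have h4 : Real.cos (u - 2 * Real.pi * m) = Real.cos u := by
    have : u - 2 * Real.pi * m = u - m * (2 * Real.pi) := by ring
    rw [this, Real.cos_sub_int_mul_two_pi]
  rw [h4] at h3
  have h5 : η ^ 2 ≤ (u - 2 * Real.pi * m) ^ 2 := by
    rw [← sq_abs (u - 2 * Real.pi * m)]
    exact pow_le_pow_left₀ hη (h m) 2
  have h6 := mul_le_mul_of_nonneg_left h5 (show 0 ≤ 2 / Real.pi ^ 2 by positivity)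
  linarith

/-- the norm of the characteristic function as a real integral -/
theorem norm_charFun_eq (μ : Measure ℝ) [IsProbabilityMeasure μ] (t : ℝ) :
    ∃ θ : ℝ, ‖charFun μ t‖ = ∫ x, Real.cos (t * x - θ) ∂μ := by
  obtain ⟨α, hα⟩ : ∃ α : ℝ, ((‖charFun μ t‖ : ℝ) : ℂ) * Complex.exp (α * Complex.I) =
      charFun μ t := ⟨_, Complex.norm_mul_exp_arg_mul_I _⟩
  refine ⟨α, ?_⟩
  have h1 : ((‖charFun μ t‖ : ℝ) : ℂ) = Complex.exp (-(α * Complex.I)) * charFun μ t := by
    calc ((‖charFun μ t‖ : ℝ) : ℂ) = Complex.exp (-(α * Complex.I)) *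
          (((‖charFun μ t‖ : ℝ) : ℂ) * Complex.exp (α * Complex.I)) := by
          rw [mul_left_comm, ← Complex.exp_add, neg_add_cancel, Complex.exp_zero, mul_one]
      _ = _ := by rw [hα]
  have h2 : ((‖charFun μ t‖ : ℝ) : ℂ) =
      ∫ x, Complex.exp (((t * x - α : ℝ) : ℂ) * Complex.I) ∂μ := by
    rw [h1, charFun_apply_real, ← integral_const_mul]
    congr 1
    funext x
    rw [← Complex.exp_add]
    congr 1
    push_cast
    ring
  have hint : Integrable (fun x : ℝ => Complex.exp (((t * x - α : ℝ) : ℂ) * Complex.I)) μ := by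
    refine Integrable.of_bound ?_ 1 (Filter.Eventually.of_forall fun x => ?_)
    · apply Continuous.aestronglyMeasurable
      fun_prop
    · rw [Complex.norm_exp_ofReal_mul_I]
  have h3 := congrArg Complex.re h2
  rw [Complex.ofReal_re] at h3
  rw [h3, ← Complex.reCLM_apply, ← ContinuousLinearMap.integral_comp_comm _ hint]
  congr 1
  funext x
  rw [Complex.reCLM_apply, Complex.exp_ofReal_mul_I_re]

theorem t_CF1 : S_CF1 := by
  intro μ K h
  have hprob := h.prob
  have hK := h.Kpos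
  have hpi := Real.pi_pos
  have hpi3 := Real.pi_gt_three
  set c' : ℝ := min (1 / 2) (1 / (32 * K)) with hc'
  have hc0 : 0 < c' := by
    rw [hc']
    positivity
  have hc1 : c' ≤ 1 / 2 := min_le_left _ _
  have hc2 : c' ≤ 1 / (32 * K) := min_le_right _ _
  refine ⟨c' ^ 2 / Real.pi ^ 2, by positivity, ?_⟩
  intro t
  by_cases ht : t = 0
  · subst ht
    simp
  have ht0 : 0 < |t| := abs_pos.2 ht
  set w : ℝ := min |t| 1 with hw
  have hw0 : 0 < w := by
    rw [hw]
    positivity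
  have hwt : w ≤ |t| := min_le_left _ _
  have hw1 : w ≤ 1 := min_le_right _ _
  have hmin : min (t ^ 2) 1 = w ^ 2 := by
    rw [← sq_abs t, hw]
    rcases le_total |t| 1 with h1 | h1
    · rw [min_eq_left h1, min_eq_left (by nlinarith)]
    · rw [min_eq_right h1, min_eq_right (by nlinarith), one_pow]
  obtain ⟨θ, hθ⟩ := norm_charFun_eq μ t
  set η : ℝ := c' * w with hη
  have hη0 : 0 < η := mul_pos hc0 hw0
  -- the bad set
  have hbad : μ {x : ℝ | |x| ≤ 2 ∧ ∃ m : ℤ, |t * x - θ - 2 * Real.pi * m| < η} ≤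
      ENNReal.ofReal (1 / 4) := by
    refine (h.dens _).trans ?_
    rw [Measure.smul_apply, smul_eq_mul]
    refine (mul_le_mul_right (vol_bad t θ η ht hη0.le) _).trans ?_
    rw [← ENNReal.ofReal_mul hK.le]
    apply ENNReal.ofReal_le_ofReal
    have h1 : (4 * |t| + 2 * η) / (2 * Real.pi) + 1 ≤ |t| + 2 := by
      have h2 : (4 * |t| + 2 * η) / (2 * Real.pi) ≤ |t| + 1 := by
        rw [div_le_iff₀ (by positivity)]
        have h3 : η ≤ 1 / 2 := by
          rw [hη]
          nlinarith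
        nlinarith
      linarith
    have h2 : (|t| + 2) * (2 * (η / |t|)) ≤ 8 * c' := by
      have h3 : (|t| + 2) * (2 * (η / |t|)) = 2 * c' * (w + 2 * (w / |t|)) := by
        rw [hη]
        field_simp
      rw [h3]
      have h4 : w / |t| ≤ 1 := by
        rw [div_le_one ht0]
        exact hwt
      nlinarith
    have h3 : ((4 * |t| + 2 * η) / (2 * Real.pi) + 1) * (2 * (η / |t|)) ≤ 8 * c' :=
      (mul_le_mul_of_nonneg_right h1 (by positivity)).trans h2
    have h4 : K * (8 * c') ≤ 1 / 4 := by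
      have h5 : K * (8 * c') ≤ K * (8 * (1 / (32 * K))) := by
        apply mul_le_mul_of_nonneg_left _ hK.le
        linarith
      have h6 : K * (8 * (1 / (32 * K))) = 1 / 4 := by
        field_simp
        norm_num
      linarith
    exact (mul_le_mul_of_nonneg_left h3 hK.le).trans h4
  -- Chebyshev
  have hcheb : μ {x : ℝ | 4 ≤ x ^ 2} ≤ ENNReal.ofReal (1 / 4) := by
    have h1 := mul_meas_ge_le_integral_of_nonneg (μ := μ) (f := fun x : ℝ => x ^ 2)
      (Filter.Eventually.of_forall fun x => sq_nonneg x) h.sq 4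
    rw [h.var] at h1
    rw [ENNReal.le_ofReal_iff_toReal_le (measure_ne_top _ _) (by norm_num)]
    change 4 * (μ {x : ℝ | 4 ≤ x ^ 2}).toReal ≤ 1 at h1
    linarith
  -- the good set
  set ε : ℝ := 2 / Real.pi ^ 2 * η ^ 2 with hε
  have hgood : ENNReal.ofReal (1 / 2) ≤ μ {x : ℝ | ε ≤ 1 - Real.cos (t * x - θ)} := by
    have h1 : (Set.univ : Set ℝ) ⊆ {x : ℝ | ε ≤ 1 - Real.cos (t * x - θ)} ∪
        ({x : ℝ | 4 ≤ x ^ 2} ∪ {x : ℝ | |x| ≤ 2 ∧ ∃ m : ℤ, |t * x - θ - 2 * Real.pi * m| < η}) := by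
      intro x _
      by_cases h2 : 4 ≤ x ^ 2
      · right; left; exact h2
      · by_cases h3 : ∃ m : ℤ, |t * x - θ - 2 * Real.pi * m| < η
        · right; right
          refine ⟨?_, h3⟩
          push Not at h2
          apply abs_le_of_sq_le_sq _ (by norm_num)
          linarith
        · left
          push Not at h3
          exact one_sub_cos_ge _ _ hη0.le h3
    have h2 : (1 : ℝ≥0∞) ≤ μ {x : ℝ | ε ≤ 1 - Real.cos (t * x - θ)} +
        (ENNReal.ofReal (1 / 4) + ENNReal.ofReal (1 / 4)) := by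
      calc (1 : ℝ≥0∞) = μ Set.univ := measure_univ.symm
        _ ≤ _ := measure_mono h1
        _ ≤ _ := (measure_union_le _ _).trans
            (add_le_add le_rfl ((measure_union_le _ _).trans (add_le_add hcheb hbad)))
    rw [← ENNReal.ofReal_add (by norm_num) (by norm_num)] at h2
    have h3 : (1 : ℝ≥0∞) = ENNReal.ofReal (1 / 2) + ENNReal.ofReal (1 / 4 + 1 / 4) := by
      rw [← ENNReal.ofReal_add (by norm_num) (by norm_num)]
      norm_num
    rw [h3] at h2
    exact (ENNReal.add_le_add_iff_right ENNReal.ofReal_ne_top).1 h2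
  have hintcos : Integrable (fun x : ℝ => Real.cos (t * x - θ)) μ := by
    refine Integrable.of_bound ?_ 1 (Filter.Eventually.of_forall fun x => ?_)
    · apply Continuous.aestronglyMeasurable
      fun_prop
    · rw [Real.norm_eq_abs]
      exact Real.abs_cos_le_one _
  have hmain := mul_meas_ge_le_integral_of_nonneg (μ := μ)
    (f := fun x : ℝ => 1 - Real.cos (t * x - θ))
    (Filter.Eventually.of_forall fun x => sub_nonneg.2 (Real.cos_le_one _))
    ((integrable_const 1).sub hintcos) ε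
  have hI : ∫ x, (1 - Real.cos (t * x - θ)) ∂μ = 1 - ‖charFun μ t‖ := by
    rw [integral_sub (integrable_const 1) hintcos, hθ]
    simp
  rw [hI] at hmain
  have hgood' : 1 / 2 ≤ (μ {x : ℝ | ε ≤ 1 - Real.cos (t * x - θ)}).toReal := by
    rw [← ENNReal.ofReal_le_iff_le_toReal (measure_ne_top _ _)]
    exact hgood
  have hε0 : 0 ≤ ε := by positivity
  have h1 : ε * (1 / 2) ≤ 1 - ‖charFun μ t‖ :=
    (mul_le_mul_of_nonneg_left hgood' hε0).trans hmain
  have h2 : ε * (1 / 2) = c' ^ 2 / Real.pi ^ 2 * w ^ 2 := by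
    rw [hε, hη]
    ring
  rw [hmin, ← h2]
  have h3 := Real.add_one_le_exp (-(ε * (1 / 2)))
  linarith

end Pool.Agent.W880.SV
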