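import Pool.Agent.W856.SV.Stms

/-! SV-CF2: `L^p` norms of the characteristic function (MP_b26df8_pr). -/

set_option autoImplicit false

namespace Pool.Agent.W880.SV

open MeasureTheory ProbabilityTheory Pool.Agent.W856.SV Filter
open scoped ENNReal NNReal

/-- Fubini -/
theorem int_sq_charFun (μ : Measure ℝ) [IsProbabilityMeasure μ] (v : ℝ≥0) :
    ∫⁻ t, ENNReal.ofReal (‖charFun μ t‖ ^ 2) ∂(gaussianReal 0 v) =
      ∫⁻ x, ∫⁻ y, ENNReal.ofReal (Real.exp (-(v * (x - y) ^ 2 / 2))) ∂μ ∂μ := by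
  have h1 : ∀ t : ℝ, ((‖charFun μ t‖ ^ 2 : ℝ) : ℂ) =
      ∫ p : ℝ × ℝ, Complex.exp (t * (p.1 - p.2) * Complex.I) ∂(μ.prod μ) := by
    intro t
    have h : ∀ p : ℝ × ℝ, Complex.exp (t * (p.1 - p.2) * Complex.I) =
        Complex.exp (t * p.1 * Complex.I) * Complex.exp ((-t : ℝ) * p.2 * Complex.I) := by
      intro p
      rw [← Complex.exp_add]
      congr 1
      push_cast
      ring
    simp_rw [h]
    rw [integral_prod_mul (fun x : ℝ => Complex.exp (t * x * Complex.I))
      (fun y : ℝ => Complex.exp ((-t : ℝ) * y * Complex.I))]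
    rw [← charFun_apply_real, ← charFun_apply_real, charFun_neg, Complex.mul_conj,
      Complex.normSq_eq_norm_sq]
  have h2 : ∫ t, ((‖charFun μ t‖ ^ 2 : ℝ) : ℂ) ∂(gaussianReal 0 v) =
      ∫ p : ℝ × ℝ, ∫ t : ℝ, Complex.exp (t * (p.1 - p.2) * Complex.I) ∂(gaussianReal 0 v)
        ∂(μ.prod μ) := by
    simp_rw [h1]
    rw [integral_integral_swap]
    refine Integrable.of_bound ?_ 1 (Filter.Eventually.of_forall fun x => ?_)
    · apply Continuous.aestronglyMeasurable
      change Continuous fun x : ℝ × (ℝ × ℝ) =>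
        Complex.exp ((x.1 : ℂ) * ((x.2.1 : ℂ) - (x.2.2 : ℂ)) * Complex.I)
      fun_prop
    · have h : ((x.1 : ℂ) * ((x.2.1 : ℂ) - (x.2.2 : ℂ)) * Complex.I) =
          ((x.1 * (x.2.1 - x.2.2) : ℝ) : ℂ) * Complex.I := by
        push_cast
        ring
      change ‖Complex.exp ((x.1 : ℂ) * ((x.2.1 : ℂ) - (x.2.2 : ℂ)) * Complex.I)‖ ≤ 1
      rw [h, Complex.norm_exp_ofReal_mul_I]
  have h3 : ∀ p : ℝ × ℝ, ∫ t : ℝ, Complex.exp (t * (p.1 - p.2) * Complex.I) ∂(gaussianReal 0 v) =
      ((Real.exp (-(v * (p.1 - p.2) ^ 2 / 2)) : ℝ) : ℂ) := by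
    intro p
    have h := charFun_gaussianReal (μ := 0) (v := v) (p.1 - p.2)
    rw [charFun_apply_real] at h
    have h' : ∀ t : ℝ, Complex.exp (t * (p.1 - p.2) * Complex.I) =
        Complex.exp (((p.1 - p.2 : ℝ) : ℂ) * t * Complex.I) := by
      intro t
      congr 1
      push_cast
      ring
    simp_rw [h']
    rw [h, Complex.ofReal_exp]
    congr 1
    push_cast
    ring
  simp_rw [h3] at h2
  have h4 : ∫ t, ‖charFun μ t‖ ^ 2 ∂(gaussianReal 0 v) =
      ∫ p : ℝ × ℝ, Real.exp (-(v * (p.1 - p.2) ^ 2 / 2)) ∂(μ.prod μ) := by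
    have e1 := integral_ofReal (𝕜 := ℂ) (μ := gaussianReal 0 v)
      (f := fun t => ‖charFun μ t‖ ^ 2)
    have e2 := integral_ofReal (𝕜 := ℂ) (μ := μ.prod μ)
      (f := fun p : ℝ × ℝ => Real.exp (-(v * (p.1 - p.2) ^ 2 / 2)))
    have e3 := (e1.symm.trans h2).trans e2
    exact Complex.ofReal_injective e3
  have hm1 : Measurable fun t : ℝ => ‖charFun μ t‖ ^ 2 := by
    have := measurable_charFun (μ := μ)
    fun_prop
  have hm2 : Continuous fun p : ℝ × ℝ => Real.exp (-(v * (p.1 - p.2) ^ 2 / 2)) := by fun_prop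
  rw [← ofReal_integral_eq_lintegral_ofReal, h4, ofReal_integral_eq_lintegral_ofReal,
    lintegral_prod]
  · exact hm2.measurable.ennreal_ofReal.aemeasurable
  · refine Integrable.of_bound hm2.aestronglyMeasurable 1 (Filter.Eventually.of_forall fun x => ?_)
    rw [Real.norm_eq_abs, abs_of_nonneg (Real.exp_nonneg _), Real.exp_le_one_iff]
    have : 0 ≤ (v : ℝ) * (x.1 - x.2) ^ 2 / 2 := by positivity
    linarith
  · exact Filter.Eventually.of_forall fun x => Real.exp_nonneg _
  · refine Integrable.of_bound hm1.aestronglyMeasurable 1 (Filter.Eventually.of_forall fun x => ?_)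
    rw [Real.norm_eq_abs, abs_of_nonneg (by positivity)]
    exact pow_le_one₀ (norm_nonneg _) (norm_charFun_le_one x)
  · exact Filter.Eventually.of_forall fun x => by positivity

theorem int_sq_charFun_le (μ : Measure ℝ) (K : ℝ) (h : Nice μ K) (v : ℝ≥0) (hv : v ≠ 0) :
    ∫⁻ t : ℝ, ENNReal.ofReal (‖charFun μ t‖ ^ 2) *
      ENNReal.ofReal (Real.exp (-(t ^ 2 / (2 * v)))) ≤ ENNReal.ofReal (2 * Real.pi * K) := by
  have hprob := h.prob
  have hK := h.Kpos
  have hpi := Real.pi_pos
  have hv0 : (0 : ℝ) < v := by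
    have : 0 < v := pos_iff_ne_zero.2 hv
    exact_mod_cast this
  have h0 := int_sq_charFun μ v
  have h1 : ∫⁻ x, ∫⁻ y, ENNReal.ofReal (Real.exp (-(v * (x - y) ^ 2 / 2))) ∂μ ∂μ ≤
      ENNReal.ofReal (K * Real.sqrt (2 * Real.pi / v)) := by
    have h2 : ∀ x : ℝ, ∫⁻ y, ENNReal.ofReal (Real.exp (-(v * (x - y) ^ 2 / 2))) ∂μ ≤
        ENNReal.ofReal (K * Real.sqrt (2 * Real.pi / v)) := by
      intro x
      calc ∫⁻ y, ENNReal.ofReal (Real.exp (-(v * (x - y) ^ 2 / 2))) ∂μ
          ≤ ∫⁻ y, ENNReal.ofReal (Real.exp (-(v * (x - y) ^ 2 / 2)))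
              ∂(ENNReal.ofReal K • (volume : Measure ℝ)) := lintegral_mono' h.dens le_rfl
        _ = ENNReal.ofReal K * ∫⁻ y, ENNReal.ofReal (Real.exp (-(v * (x - y) ^ 2 / 2))) := by
            rw [lintegral_smul_measure, smul_eq_mul]
        _ = ENNReal.ofReal K * ∫⁻ z : ℝ, ENNReal.ofReal (Real.exp (-(v / 2) * z ^ 2)) := by
            congr 1
            rw [← lintegral_sub_left_eq_self
              (fun z : ℝ => ENNReal.ofReal (Real.exp (-(v / 2) * z ^ 2))) x]
            congr 1
            funext y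
            congr 2
            ring
        _ = ENNReal.ofReal (K * Real.sqrt (2 * Real.pi / v)) := by
            rw [← ofReal_integral_eq_lintegral_ofReal
              (integrable_exp_neg_mul_sq (by positivity))
              (Filter.Eventually.of_forall fun x => Real.exp_nonneg _), integral_gaussian,
              ← ENNReal.ofReal_mul hK.le]
            congr 3
            field_simp
    calc _ ≤ ∫⁻ x, ENNReal.ofReal (K * Real.sqrt (2 * Real.pi / v)) ∂μ := lintegral_mono h2
      _ = _ := by rw [lintegral_const, measure_univ, mul_one]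
  rw [← h0, gaussianReal_of_var_ne_zero _ hv,
    lintegral_withDensity_eq_lintegral_mul _ (measurable_gaussianPDF _ _) (by
      have := measurable_charFun (μ := μ)
      fun_prop)] at h1
  have h5 : ∀ t : ℝ, ENNReal.ofReal (‖charFun μ t‖ ^ 2) *
      ENNReal.ofReal (Real.exp (-(t ^ 2 / (2 * v)))) =
      ENNReal.ofReal (Real.sqrt (2 * Real.pi * v)) *
        ((gaussianPDF 0 v * fun t => ENNReal.ofReal (‖charFun μ t‖ ^ 2)) t) := by
    intro t
    rw [Pi.mul_apply, gaussianPDF_def, gaussianPDFReal_def, ← mul_assoc,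
      ← ENNReal.ofReal_mul (Real.sqrt_nonneg _), mul_comm]
    congr 2
    rw [← mul_assoc, mul_inv_cancel₀, one_mul]
    · congr 1
      ring
    · positivity
  simp_rw [h5]
  rw [lintegral_const_mul' _ _ ENNReal.ofReal_ne_top]
  refine (mul_le_mul_right h1 _).trans ?_
  rw [← ENNReal.ofReal_mul (Real.sqrt_nonneg _)]
  apply ENNReal.ofReal_le_ofReal
  have h6 : Real.sqrt (2 * Real.pi * v) * (K * Real.sqrt (2 * Real.pi / v)) =
      K * Real.sqrt ((2 * Real.pi * v) * (2 * Real.pi / v)) := by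
    rw [Real.sqrt_mul (by positivity : (0 : ℝ) ≤ 2 * Real.pi * v)]
    ring
  have h7 : (2 * Real.pi * v) * (2 * Real.pi / v) = (2 * Real.pi) ^ 2 := by
    field_simp
  rw [h6, h7, Real.sqrt_sq (by positivity)]
  linarith

theorem lint_sq_charFun_le (μ : Measure ℝ) (K : ℝ) (h : Nice μ K) :
    ∫⁻ t : ℝ, ENNReal.ofReal (‖charFun μ t‖ ^ 2) ≤ ENNReal.ofReal (2 * Real.pi * K) := by
  have hprob := h.prob
  set f : ℕ → ℝ → ℝ≥0∞ := fun n t => ENNReal.ofReal (‖charFun μ t‖ ^ 2) *
      ENNReal.ofReal (Real.exp (-(t ^ 2 / (2 * ((n : ℝ≥0) + 1 : ℝ≥0))))) with hf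
  have hlim : ∀ t : ℝ, liminf (fun n => f n t) atTop = ENNReal.ofReal (‖charFun μ t‖ ^ 2) := by
    intro t
    apply Tendsto.liminf_eq
    have h1 : Tendsto (fun n : ℕ => Real.exp (-(t ^ 2 / (2 * ((n : ℝ) + 1))))) atTop
        (nhds (Real.exp (-0))) := by
      apply (Real.continuous_exp.tendsto _).comp
      apply Tendsto.neg
      have h2 : Tendsto (fun n : ℕ => (t ^ 2 / 2) * (1 / ((n : ℝ) + 1))) atTop
          (nhds ((t ^ 2 / 2) * 0)) :=
        tendsto_one_div_add_atTop_nhds_zero_nat.const_mul _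
      rw [mul_zero] at h2
      refine h2.congr fun n => ?_
      field_simp
    rw [neg_zero, Real.exp_zero] at h1
    have h3 := ENNReal.tendsto_ofReal h1
    rw [ENNReal.ofReal_one] at h3
    have h4 := ENNReal.Tendsto.const_mul (a := ENNReal.ofReal (‖charFun μ t‖ ^ 2)) h3
      (Or.inr ENNReal.ofReal_ne_top)
    rw [mul_one] at h4
    refine h4.congr fun n => ?_
    simp only [hf]
    push_cast
    rfl
  have h1 := lintegral_liminf_le (μ := (volume : Measure ℝ)) (u := (atTop : Filter ℕ)) (f := f) (by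
    intro n
    have := measurable_charFun (μ := μ)
    simp only [hf]
    fun_prop)
  simp_rw [hlim] at h1
  refine h1.trans ?_
  refine Filter.liminf_le_of_le (by isBoundedDefault) ?_
  intro b hb
  obtain ⟨n, hn⟩ := hb.exists
  refine hn.trans ?_
  exact int_sq_charFun_le μ K h _ (by positivity)

theorem t_CF2 (h : S_CF1) : S_CF2 := by
  intro μ K hN
  obtain ⟨c, hc, hc1⟩ := h μ K hN
  have hprob := hN.prob
  have hK := hN.Kpos
  have hpi := Real.pi_pos
  refine ⟨Real.sqrt (Real.pi / c) + (1 / c + 2) * (2 * Real.pi * K), by positivity, ?_⟩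
  intro p hp
  have hp0 : 0 < p := by linarith
  have hsp : 0 < Real.sqrt p := Real.sqrt_pos.2 hp0
  have hpt : ∀ t : ℝ, ENNReal.ofReal (‖charFun μ t‖ ^ p) ≤
      ENNReal.ofReal (Real.exp (-(c * p) * t ^ 2)) +
        ENNReal.ofReal (Real.exp (-(c * (p - 2)))) * ENNReal.ofReal (‖charFun μ t‖ ^ 2) := by
    intro t
    have h1 := hc1 t
    rcases le_total (t ^ 2) 1 with ht | ht
    · rw [min_eq_left ht] at h1
      refine le_trans ?_ le_self_add
      apply ENNReal.ofReal_le_ofReal
      calc ‖charFun μ t‖ ^ p ≤ (Real.exp (-(c * t ^ 2))) ^ p :=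
            Real.rpow_le_rpow (norm_nonneg _) h1 hp0.le
        _ = _ := by
            rw [← Real.exp_mul]
            congr 1
            ring
    · rw [min_eq_right ht] at h1
      refine le_trans ?_ le_add_self
      rw [← ENNReal.ofReal_mul (Real.exp_nonneg _)]
      apply ENNReal.ofReal_le_ofReal
      calc ‖charFun μ t‖ ^ p = ‖charFun μ t‖ ^ ((p - 2) + 2) := by
            congr 1
            ring
        _ = ‖charFun μ t‖ ^ (p - 2) * ‖charFun μ t‖ ^ (2 : ℝ) :=
            Real.rpow_add_of_nonneg (norm_nonneg _) (by linarith) (by norm_num)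
        _ = ‖charFun μ t‖ ^ (p - 2) * ‖charFun μ t‖ ^ 2 := by
            rw [Real.rpow_two]
        _ ≤ (Real.exp (-(c * 1))) ^ (p - 2) * ‖charFun μ t‖ ^ 2 := by
            apply mul_le_mul_of_nonneg_right _ (by positivity)
            exact Real.rpow_le_rpow (norm_nonneg _) h1 (by linarith)
        _ = _ := by
            rw [← Real.exp_mul]
            congr 2
            ring
  have hmeas : Measurable fun t : ℝ => ENNReal.ofReal (‖charFun μ t‖ ^ 2) := by
    have := measurable_charFun (μ := μ)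
    fun_prop
  refine (lintegral_mono hpt).trans ?_
  rw [lintegral_add_left (by fun_prop), lintegral_const_mul _ hmeas]
  rw [← ofReal_integral_eq_lintegral_ofReal
              (integrable_exp_neg_mul_sq (by positivity))
              (Filter.Eventually.of_forall fun x => Real.exp_nonneg _), integral_gaussian]
  refine (add_le_add le_rfl (mul_le_mul_right (lint_sq_charFun_le μ K hN) _)).trans ?_
  rw [← ENNReal.ofReal_mul (Real.exp_nonneg _), ← ENNReal.ofReal_add (by positivity) (by positivity)]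
  apply ENNReal.ofReal_le_ofReal
  rw [add_div]
  apply add_le_add
  · rw [← Real.sqrt_div (by positivity)]
    apply le_of_eq
    congr 1
    field_simp
  · rw [mul_div_right_comm]
    apply mul_le_mul_of_nonneg_right _ (by positivity)
    rw [le_div_iff₀ hsp]
    have h1 : Real.sqrt p ≤ p := by
      rw [Real.sqrt_le_left hp0.le]
      nlinarith
    have h2 : 1 + c * (p - 2) ≤ Real.exp (c * (p - 2)) := by
      have := Real.add_one_le_exp (c * (p - 2))
      linarith
    have h3 : p ≤ (1 / c + 2) * (1 + c * (p - 2)) := by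
      have h4 : (1 / c + 2) * (1 + c * (p - 2)) = 1 / c + 2 + (p - 2) + 2 * c * (p - 2) := by
        field_simp
        ring
      rw [h4]
      have h5 : 0 ≤ 2 * c * (p - 2) := mul_nonneg (by positivity) (by linarith)
      have h6 : 0 < 1 / c := by positivity
      linarith
    have h4 : p ≤ (1 / c + 2) * Real.exp (c * (p - 2)) :=
      h3.trans (mul_le_mul_of_nonneg_left h2 (by positivity))
    calc Real.exp (-(c * (p - 2))) * Real.sqrt p ≤ Real.exp (-(c * (p - 2))) * p :=
          mul_le_mul_of_nonneg_left h1 (Real.exp_nonneg _)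
      _ ≤ Real.exp (-(c * (p - 2))) * ((1 / c + 2) * Real.exp (c * (p - 2))) :=
          mul_le_mul_of_nonneg_left h4 (Real.exp_nonneg _)
      _ = (1 / c + 2) * (Real.exp (-(c * (p - 2))) * Real.exp (c * (p - 2))) := by ring
      _ = 1 / c + 2 := by rw [← Real.exp_add, neg_add_cancel, Real.exp_zero, mul_one]

end Pool.Agent.W880.SV
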