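import Pool.Agent.W856.SV.Stms

/-! SV-F1: cubes are bounded by the integral of the characteristic function (MP_b26df8_pr). -/

set_option autoImplicit false

namespace Pool.Agent.W880.SV

open MeasureTheory ProbabilityTheory Pool.Agent.W856.SV Matrix
open scoped ENNReal NNReal

/-- Fourier transform of the Gaussian density -/
theorem gauss_ft (v : ℝ≥0) (hv : v ≠ 0) (y : ℝ) :
    ∫ s : ℝ, ((gaussianPDFReal 0 v s : ℝ) : ℂ) * Complex.exp (((s * y : ℝ) : ℂ) * Complex.I) =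
      ((Real.exp (-(v * y ^ 2 / 2)) : ℝ) : ℂ) := by
  have h := charFun_gaussianReal (μ := 0) (v := v) y
  rw [charFun_apply_real, integral_gaussianReal_eq_integral_smul hv] at h
  simp_rw [Complex.real_smul] at h
  have h' : ∀ s : ℝ, Complex.exp (((s * y : ℝ) : ℂ) * Complex.I) =
      Complex.exp ((y : ℂ) * s * Complex.I) := by
    intro s
    congr 1
    push_cast
    ring
  simp_rw [h']
  rw [h, Complex.ofReal_exp]
  congr 1
  push_cast
  ring

theorem prod_gauss_ft (v : ℝ≥0) (hv : v ≠ 0) (y : Fin 3 → ℝ) :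
    ∫ ξ : Fin 3 → ℝ, ((∏ k, gaussianPDFReal 0 v (ξ k) : ℝ) : ℂ) *
        Complex.exp (((∑ k, ξ k * y k : ℝ) : ℂ) * Complex.I) =
      ((∏ k, Real.exp (-(v * y k ^ 2 / 2)) : ℝ) : ℂ) := by
  have h : ∀ ξ : Fin 3 → ℝ, ((∏ k, gaussianPDFReal 0 v (ξ k) : ℝ) : ℂ) *
        Complex.exp (((∑ k, ξ k * y k : ℝ) : ℂ) * Complex.I) =
      ∏ k, (((gaussianPDFReal 0 v (ξ k) : ℝ) : ℂ) *
        Complex.exp (((ξ k * y k : ℝ) : ℂ) * Complex.I)) := by
    intro ξ
    rw [Finset.prod_mul_distrib, ← Complex.exp_sum, Complex.ofReal_prod, Complex.ofReal_sum,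
      Finset.sum_mul]
  simp_rw [h]
  rw [integral_fintype_prod_volume_eq_prod (fun (k : Fin 3) (s : ℝ) =>
    ((gaussianPDFReal 0 v s : ℝ) : ℂ) * Complex.exp (((s * y k : ℝ) : ℂ) * Complex.I))]
  simp_rw [gauss_ft v hv]
  rw [Complex.ofReal_prod]

/-- independence -/
theorem E_exp (μ : Measure ℝ) [IsProbabilityMeasure μ] {ι : Type} [Fintype ι]
    (a : Fin 3 → ι → ℝ) (z : Fin 3 → ℝ) (ξ : Fin 3 → ℝ) :
    ∫ x, Complex.exp (((∑ k, ξ k * (a k ⬝ᵥ x + z k) : ℝ) : ℂ) * Complex.I) ∂(Pr μ ι) =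
      Complex.exp (((∑ k, ξ k * z k : ℝ) : ℂ) * Complex.I) *
        ∏ i, charFun μ (∑ k, ξ k * a k i) := by
  have h : ∀ x : ι → ℝ, Complex.exp (((∑ k, ξ k * (a k ⬝ᵥ x + z k) : ℝ) : ℂ) * Complex.I) =
      Complex.exp (((∑ k, ξ k * z k : ℝ) : ℂ) * Complex.I) *
        ∏ i, Complex.exp (((∑ k, ξ k * a k i : ℝ) : ℂ) * x i * Complex.I) := by
    intro x
    rw [← Complex.exp_sum, ← Complex.exp_add]
    congr 1
    have h1 : ∑ k, ξ k * (a k ⬝ᵥ x + z k) =
        ∑ k, ξ k * z k + ∑ i, (∑ k, ξ k * a k i) * x i := by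
      simp_rw [mul_add, Finset.sum_add_distrib, dotProduct, Finset.mul_sum, Finset.sum_mul]
      rw [add_comm, Finset.sum_comm]
      congr 1
      refine Finset.sum_congr rfl fun i _ => Finset.sum_congr rfl fun k _ => ?_
      ring
    rw [h1, Complex.ofReal_add, add_mul, Complex.ofReal_sum (f := fun i =>
      (∑ k, ξ k * a k i) * x i), Finset.sum_mul]
    simp_rw [Complex.ofReal_mul]
  simp_rw [h]
  rw [integral_const_mul]
  congr 1
  unfold Pr
  rw [integral_fintype_prod_eq_prod (fun (i : ι) (s : ℝ) =>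
    Complex.exp (((∑ k, ξ k * a k i : ℝ) : ℂ) * (s : ℂ) * Complex.I))]
  simp_rw [charFun_apply_real]

theorem t_F1 : S_F1 := by
  intro μ hμ ι _ a z r hr
  have hpi := Real.pi_pos
  have hprob : IsProbabilityMeasure (Pr μ ι) := by
    unfold Pr
    infer_instance
  set v : ℝ≥0 := ⟨1 / r ^ 2, by positivity⟩ with hvdef
  have hvr : (v : ℝ) = 1 / r ^ 2 := rfl
  have hv0 : (0 : ℝ) < v := by
    rw [hvr]
    positivity
  have hv : v ≠ 0 := by
    intro h
    rw [h] at hv0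
    simp at hv0
  -- the Gaussian functional
  set Q : (ι → ℝ) → ℝ := fun x => ∏ k : Fin 3, Real.exp (-(v * (a k ⬝ᵥ x + z k) ^ 2 / 2)) with hQ
  have hQ0 : ∀ x, 0 ≤ Q x := fun x => Finset.prod_nonneg fun k _ => Real.exp_nonneg _
  have hdot : ∀ k : Fin 3, Continuous fun x : ι → ℝ => a k ⬝ᵥ x := by
    intro k
    unfold dotProduct
    fun_prop
  have hQc : Continuous Q := by
    simp only [hQ]
    have := hdot
    fun_prop
  have hQ1 : ∀ x, Q x ≤ 1 := by
    intro x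
    apply Finset.prod_le_one
    · intro k _
      exact Real.exp_nonneg _
    · intro k _
      rw [Real.exp_le_one_iff]
      have : 0 ≤ (v : ℝ) * (a k ⬝ᵥ x + z k) ^ 2 / 2 := by positivity
      linarith
  have hQi : Integrable Q (Pr μ ι) := by
    refine Integrable.of_bound hQc.aestronglyMeasurable 1 (Filter.Eventually.of_forall fun x => ?_)
    rw [Real.norm_eq_abs, abs_of_nonneg (hQ0 x)]
    exact hQ1 x
  -- Markov
  have h1 : ENNReal.ofReal (Real.exp (-(1 / 2)) ^ 3) *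
      Pr μ ι {x | ∀ k, |a k ⬝ᵥ x + z k| ≤ r} ≤ ∫⁻ x, ENNReal.ofReal (Q x) ∂(Pr μ ι) := by
    refine le_trans ?_ (mul_meas_ge_le_lintegral hQc.measurable.ennreal_ofReal
      (ENNReal.ofReal (Real.exp (-(1 / 2)) ^ 3)))
    refine mul_le_mul_right (measure_mono ?_) _
    intro x hx
    apply ENNReal.ofReal_le_ofReal
    have h2 : Real.exp (-(1 / 2)) ^ 3 = ∏ _k : Fin 3, Real.exp (-(1 / 2)) := by
      rw [Finset.prod_const]
      rfl
    rw [h2]
    apply Finset.prod_le_prod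
    · intro k _
      exact Real.exp_nonneg _
    · intro k _
      apply Real.exp_le_exp.2
      have h3 : (a k ⬝ᵥ x + z k) ^ 2 ≤ r ^ 2 := sq_le_sq' (abs_le.1 (hx k)).1 (abs_le.1 (hx k)).2
      have h4 : (v : ℝ) * (a k ⬝ᵥ x + z k) ^ 2 ≤ 1 := by
        rw [hvr, one_div, inv_mul_le_iff₀ (by positivity)]
        linarith
      linarith
  -- Fubini
  set g : (Fin 3 → ℝ) → ℝ := fun ξ => ∏ k, gaussianPDFReal 0 v (ξ k) with hg
  have hgi : Integrable g := Integrable.fintype_prod (fun k => integrable_gaussianPDFReal 0 v)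
  have hgm : Measurable g := by
    simp only [hg]
    have := measurable_gaussianPDFReal 0 v
    fun_prop
  have hg0 : ∀ ξ, 0 ≤ g ξ := fun ξ => Finset.prod_nonneg fun k _ => gaussianPDFReal_nonneg _ _ _
  have h2 : ((∫ x, Q x ∂(Pr μ ι) : ℝ) : ℂ) = ∫ ξ : Fin 3 → ℝ, ((g ξ : ℝ) : ℂ) *
      (Complex.exp (((∑ k, ξ k * z k : ℝ) : ℂ) * Complex.I) *
        ∏ i, charFun μ (∑ k, ξ k * a k i)) := by
    have h20 : ((∫ x, Q x ∂(Pr μ ι) : ℝ) : ℂ) = ∫ x, ((Q x : ℝ) : ℂ) ∂(Pr μ ι) :=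
      (integral_ofReal (𝕜 := ℂ) (μ := Pr μ ι) (f := Q)).symm
    rw [h20]
    simp only [hQ]
    simp_rw [← prod_gauss_ft v hv]
    rw [integral_integral_swap]
    · congr 1
      funext ξ
      rw [integral_const_mul, E_exp]
    · apply Integrable.mono' (hgi.comp_snd (Pr μ ι))
      · have h3 : Measurable fun p : (ι → ℝ) × (Fin 3 → ℝ) =>
            ((g p.2 : ℝ) : ℂ) * Complex.exp (((∑ k, p.2 k * (a k ⬝ᵥ p.1 + z k) : ℝ) : ℂ) *
              Complex.I) := by
          have := hdot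
          fun_prop
        exact h3.aestronglyMeasurable
      · refine Filter.Eventually.of_forall fun p => ?_
        change ‖((g p.2 : ℝ) : ℂ) * Complex.exp (((∑ k, p.2 k * (a k ⬝ᵥ p.1 + z k) : ℝ) : ℂ) *
              Complex.I)‖ ≤ g p.2
        rw [norm_mul, Complex.norm_exp_ofReal_mul_I, mul_one, Complex.norm_real,
          Real.norm_eq_abs, abs_of_nonneg (hg0 _)]
  have h3 : ∫⁻ x, ENNReal.ofReal (Q x) ∂(Pr μ ι) ≤
      ∫⁻ ξ : Fin 3 → ℝ, ENNReal.ofReal (g ξ) *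
        ∏ i, ENNReal.ofReal ‖charFun μ (∑ k, ξ k * a k i)‖ := by
    rw [← ofReal_integral_eq_lintegral_ofReal hQi (Filter.Eventually.of_forall hQ0)]
    have h4 : ENNReal.ofReal (∫ x, Q x ∂(Pr μ ι)) = ‖((∫ x, Q x ∂(Pr μ ι) : ℝ) : ℂ)‖ₑ := by
      rw [← ofReal_norm, Complex.norm_real, Real.norm_eq_abs,
        abs_of_nonneg (integral_nonneg hQ0)]
    rw [h4, h2]
    refine (enorm_integral_le_lintegral_enorm _).trans (le_of_eq ?_)
    congr 1
    funext ξ
    rw [← ofReal_norm, norm_mul, norm_mul, Complex.norm_exp_ofReal_mul_I, one_mul,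
      norm_prod, Complex.norm_real, Real.norm_eq_abs, abs_of_nonneg (hg0 _),
      ENNReal.ofReal_mul (hg0 _), ENNReal.ofReal_prod_of_nonneg (fun i _ => norm_nonneg _)]
  -- bound of the density
  have hgb : ∀ ξ, g ξ ≤ (r / Real.sqrt (2 * Real.pi)) ^ 3 := by
    intro ξ
    have h4 : (r / Real.sqrt (2 * Real.pi)) ^ 3 = ∏ _k : Fin 3, (r / Real.sqrt (2 * Real.pi)) := by
      rw [Finset.prod_const]
      rfl
    rw [h4]
    apply Finset.prod_le_prod
    · intro k _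
      exact gaussianPDFReal_nonneg _ _ _
    · intro k _
      unfold gaussianPDFReal
      have h5 : (Real.sqrt (2 * Real.pi * v))⁻¹ = r / Real.sqrt (2 * Real.pi) := by
        rw [hvr, Real.sqrt_mul (by positivity), one_div, Real.sqrt_inv, Real.sqrt_sq hr.le]
        field_simp
      rw [h5]
      have h6 : Real.exp (-(ξ k - 0) ^ 2 / (2 * v)) ≤ 1 := by
        rw [Real.exp_le_one_iff]
        have : 0 ≤ (ξ k - 0) ^ 2 / (2 * v) := by positivity
        rw [neg_div]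
        linarith
      have h7 : 0 ≤ r / Real.sqrt (2 * Real.pi) := by positivity
      nlinarith
  have h5 : ENNReal.ofReal (Real.exp (-(1 / 2)) ^ 3) *
      Pr μ ι {x | ∀ k, |a k ⬝ᵥ x + z k| ≤ r} ≤ ENNReal.ofReal ((r / Real.sqrt (2 * Real.pi)) ^ 3) *
        ∫⁻ ξ : Fin 3 → ℝ, ∏ i, ENNReal.ofReal ‖charFun μ (∑ k, ξ k * a k i)‖ := by
    refine (h1.trans h3).trans ?_
    rw [← lintegral_const_mul' _ _ ENNReal.ofReal_ne_top]
    refine lintegral_mono fun ξ => ?_
    exact mul_le_mul_left (ENNReal.ofReal_le_ofReal (hgb ξ)) _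
  have he : Real.exp 1 ≤ 2 * Real.pi := by
    have := Real.exp_one_lt_d9
    have := Real.pi_gt_three
    linarith
  have hfin : (r / Real.sqrt (2 * Real.pi)) ^ 3 ≤ Real.exp (-(1 / 2)) ^ 3 * r ^ 3 := by
    rw [← mul_pow]
    apply pow_le_pow_left₀ (by positivity)
    rw [div_le_iff₀ (by positivity)]
    have h6 : 1 ≤ Real.exp (-(1 / 2)) * Real.sqrt (2 * Real.pi) := by
      have h7 : Real.exp (1 / 2) ≤ Real.sqrt (2 * Real.pi) := by
        apply Real.le_sqrt_of_sq_le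
        rw [← Real.exp_nat_mul]
        norm_num
        exact he
      calc (1 : ℝ) = Real.exp (-(1 / 2)) * Real.exp (1 / 2) := by
            rw [← Real.exp_add, neg_add_cancel, Real.exp_zero]
        _ ≤ _ := mul_le_mul_of_nonneg_left h7 (Real.exp_nonneg _)
    nlinarith
  have h6 := h5.trans (mul_le_mul_left (ENNReal.ofReal_le_ofReal hfin) _)
  rw [ENNReal.ofReal_mul (by positivity), mul_assoc] at h6
  refine (ENNReal.mul_le_mul_iff_right ?_ ENNReal.ofReal_ne_top).1 h6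
  rw [ne_eq, ENNReal.ofReal_eq_zero, not_le]
  positivity

end Pool.Agent.W880.SV
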