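import Pool.Agent.W856.SV.Stms

/-! SV-F3: Hölder and Cauchy–Binet (MP_b26df8_pr). -/

set_option autoImplicit false
set_option linter.unusedSectionVars false

namespace Pool.Agent.W880.SV

open MeasureTheory Pool.Agent.W856.SV Matrix
open scoped ENNReal NNReal

section alg

variable {ι : Type} [Fintype ι]

/-- squared length of the vector `a^i` -/
noncomputable def cc (a : Fin 3 → ι → ℝ) (i : ι) : ℝ := ∑ k, a k i ^ 2

/-- the matrix with rows `a^p, a^q, a^r` -/
def MM (a : Fin 3 → ι → ℝ) (p q r : ι) : Matrix (Fin 3) (Fin 3) ℝ :=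
  !![a 0 p, a 1 p, a 2 p; a 0 q, a 1 q, a 2 q; a 0 r, a 1 r, a 2 r]

/-- its determinant -/
def DD (a : Fin 3 → ι → ℝ) (p q r : ι) : ℝ :=
  a 0 p * (a 1 q * a 2 r - a 2 q * a 1 r) - a 1 p * (a 0 q * a 2 r - a 2 q * a 0 r) +
    a 2 p * (a 0 q * a 1 r - a 1 q * a 0 r)

theorem det_MM (a : Fin 3 → ι → ℝ) (p q r : ι) : (MM a p q r).det = DD a p q r := by
  unfold MM DD
  rw [Matrix.det_fin_three]
  simp
  ring

theorem cc_eq (a : Fin 3 → ι → ℝ) (i : ι) : cc a i = a 0 i ^ 2 + a 1 i ^ 2 + a 2 i ^ 2 := by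
  unfold cc
  rw [Fin.sum_univ_three]

theorem cc_nonneg (a : Fin 3 → ι → ℝ) (i : ι) : 0 ≤ cc a i := by
  rw [cc_eq]
  positivity

theorem parseval (a : Fin 3 → ι → ℝ) (h : ON a) (x y z : ℝ) :
    ∑ r, (x * a 0 r + y * a 1 r + z * a 2 r) ^ 2 = x ^ 2 + y ^ 2 + z ^ 2 := by
  have h00 := h 0 0
  have h11 := h 1 1
  have h22 := h 2 2
  have h01 := h 0 1
  have h02 := h 0 2
  have h12 := h 1 2
  simp only [dotProduct] at h00 h11 h22 h01 h02 h12
  simp at h00 h11 h22 h01 h02 h12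
  have e : ∀ r, (x * a 0 r + y * a 1 r + z * a 2 r) ^ 2 =
      x ^ 2 * (a 0 r * a 0 r) + y ^ 2 * (a 1 r * a 1 r) + z ^ 2 * (a 2 r * a 2 r) +
      2 * x * y * (a 0 r * a 1 r) + 2 * x * z * (a 0 r * a 2 r) +
      2 * y * z * (a 1 r * a 2 r) := by
    intro r
    ring
  simp_rw [e]
  simp only [Finset.sum_add_distrib, ← Finset.mul_sum]
  rw [h00, h11, h22, h01, h02, h12]
  ring

theorem sum_DD_r (a : Fin 3 → ι → ℝ) (h : ON a) (p q : ι) :
    ∑ r, DD a p q r ^ 2 = (a 1 p * a 2 q - a 2 p * a 1 q) ^ 2 +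
      (a 2 p * a 0 q - a 0 p * a 2 q) ^ 2 + (a 0 p * a 1 q - a 1 p * a 0 q) ^ 2 := by
  rw [← parseval a h]
  refine Finset.sum_congr rfl fun r _ => ?_
  unfold DD
  ring

theorem sum_DD_qr (a : Fin 3 → ι → ℝ) (h : ON a) (p : ι) :
    ∑ q, ∑ r, DD a p q r ^ 2 = 2 * cc a p := by
  simp_rw [sum_DD_r a h p]
  rw [Finset.sum_add_distrib, Finset.sum_add_distrib]
  have h1 := parseval a h 0 (-(a 2 p)) (a 1 p)
  have h2 := parseval a h (a 2 p) 0 (-(a 0 p))
  have h3 := parseval a h (-(a 1 p)) (a 0 p) 0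
  have e1 : ∑ q, (a 1 p * a 2 q - a 2 p * a 1 q) ^ 2 =
      ∑ r, (0 * a 0 r + -(a 2 p) * a 1 r + a 1 p * a 2 r) ^ 2 :=
    Finset.sum_congr rfl fun r _ => by ring
  have e2 : ∑ q, (a 2 p * a 0 q - a 0 p * a 2 q) ^ 2 =
      ∑ r, (a 2 p * a 0 r + 0 * a 1 r + -(a 0 p) * a 2 r) ^ 2 :=
    Finset.sum_congr rfl fun r _ => by ring
  have e3 : ∑ q, (a 0 p * a 1 q - a 1 p * a 0 q) ^ 2 =
      ∑ r, (-(a 1 p) * a 0 r + a 0 p * a 1 r + 0 * a 2 r) ^ 2 :=
    Finset.sum_congr rfl fun r _ => by ring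
  rw [e1, e2, e3, h1, h2, h3, cc_eq]
  ring

theorem sum_cc (a : Fin 3 → ι → ℝ) (h : ON a) : ∑ p, cc a p = 3 := by
  have h00 := h 0 0
  have h11 := h 1 1
  have h22 := h 2 2
  simp only [dotProduct] at h00 h11 h22
  simp at h00 h11 h22
  simp_rw [cc_eq, sq]
  rw [Finset.sum_add_distrib, Finset.sum_add_distrib, h00, h11, h22]
  norm_num

theorem DD_sq_swap12 (a : Fin 3 → ι → ℝ) (p q r : ι) : DD a p q r ^ 2 = DD a q p r ^ 2 := by
  unfold DD
  ring

theorem DD_sq_swap23 (a : Fin 3 → ι → ℝ) (p q r : ι) : DD a p q r ^ 2 = DD a p r q ^ 2 := by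
  unfold DD
  ring

/-- the weights -/
noncomputable def ww (a : Fin 3 → ι → ℝ) (T : ι × ι × ι) : ℝ := DD a T.1 T.2.1 T.2.2 ^ 2 / 6

theorem ww_nonneg (a : Fin 3 → ι → ℝ) (T : ι × ι × ι) : 0 ≤ ww a T := by
  unfold ww
  positivity

theorem sum_ww (a : Fin 3 → ι → ℝ) (h : ON a) : ∑ T, ww a T = 1 := by
  unfold ww
  rw [Fintype.sum_prod_type]
  simp_rw [Fintype.sum_prod_type, ← Finset.sum_div]
  simp_rw [sum_DD_qr a h]
  rw [← Finset.mul_sum, sum_cc a h]
  norm_num

/-- the exponents: `1` if `a^i ≠ 0`, `0` otherwise -/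
theorem enn_prod_rpow (x : ℝ≥0∞) {κ : Type} (s : Finset κ) (f : κ → ℝ) (hf : ∀ i, 0 ≤ f i) :
    ∏ i ∈ s, x ^ f i = x ^ ∑ i ∈ s, f i := by
  classical
  induction s using Finset.induction_on with
  | empty => simp
  | insert b s hb ih =>
    rw [Finset.prod_insert hb, Finset.sum_insert hb, ih,
      ENNReal.rpow_add_of_nonneg _ _ (hf b) (Finset.sum_nonneg fun i _ => hf i)]

theorem prod_identity (a : Fin 3 → ι → ℝ) (h : ON a) (G : ι → ℝ≥0∞)
    (hG : ∀ i, cc a i = 0 → G i = 1) :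
    ∏ i, G i = ∏ T : ι × ι × ι, (G T.1 ^ (1 / cc a T.1) * G T.2.1 ^ (1 / cc a T.2.1) *
      G T.2.2 ^ (1 / cc a T.2.2)) ^ ww a T := by
  have hw := ww_nonneg a
  have hc := cc_nonneg a
  have e1 : ∀ T : ι × ι × ι, (G T.1 ^ (1 / cc a T.1) * G T.2.1 ^ (1 / cc a T.2.1) *
      G T.2.2 ^ (1 / cc a T.2.2)) ^ ww a T =
      G T.1 ^ (ww a T / cc a T.1) * G T.2.1 ^ (ww a T / cc a T.2.1) *
        G T.2.2 ^ (ww a T / cc a T.2.2) := by
    intro T
    rw [ENNReal.mul_rpow_of_nonneg _ _ (hw T), ENNReal.mul_rpow_of_nonneg _ _ (hw T),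
      ← ENNReal.rpow_mul, ← ENNReal.rpow_mul, ← ENNReal.rpow_mul]
    congr 1
    · congr 1
      · congr 1
        ring
      · congr 1
        ring
    · congr 1
      ring
  simp_rw [e1]
  rw [Finset.prod_mul_distrib, Finset.prod_mul_distrib]
  have f1 : ∏ T : ι × ι × ι, G T.1 ^ (ww a T / cc a T.1) = ∏ i, G i ^ (cc a i / 3 / cc a i) := by
    rw [Fintype.prod_prod_type]
    refine Finset.prod_congr rfl fun p _ => ?_
    dsimp only
    rw [enn_prod_rpow (G p) Finset.univ (fun y : ι × ι => ww a (p, y) / cc a p)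
      (fun T => div_nonneg (hw _) (hc _)), ← Finset.sum_div,
      Fintype.sum_prod_type]
    congr 2
    simp only [ww]
    simp_rw [← Finset.sum_div]
    rw [sum_DD_qr a h]
    ring
  have f2 : ∏ T : ι × ι × ι, G T.2.1 ^ (ww a T / cc a T.2.1) =
      ∏ i, G i ^ (cc a i / 3 / cc a i) := by
    rw [Fintype.prod_prod_type]
    simp_rw [Fintype.prod_prod_type]
    rw [Finset.prod_comm]
    refine Finset.prod_congr rfl fun q _ => ?_
    simp_rw [enn_prod_rpow _ _ _ (fun (r : ι) => div_nonneg (hw _) (hc _))]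
    rw [enn_prod_rpow _ _ _ (fun p => Finset.sum_nonneg fun r _ => div_nonneg (hw _) (hc _))]
    simp_rw [← Finset.sum_div]
    congr 2
    simp only [ww]
    simp_rw [fun p r => DD_sq_swap12 a p q r, ← Finset.sum_div]
    rw [sum_DD_qr a h]
    ring
  have f3 : ∏ T : ι × ι × ι, G T.2.2 ^ (ww a T / cc a T.2.2) =
      ∏ i, G i ^ (cc a i / 3 / cc a i) := by
    rw [Fintype.prod_prod_type]
    simp_rw [Fintype.prod_prod_type]
    have : ∀ p : ι, ∏ q, ∏ r, G r ^ (ww a (p, q, r) / cc a r) =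
        ∏ r, ∏ q, G r ^ (ww a (p, q, r) / cc a r) := fun p => Finset.prod_comm
    simp_rw [this]
    rw [Finset.prod_comm]
    refine Finset.prod_congr rfl fun r _ => ?_
    simp_rw [enn_prod_rpow _ _ _ (fun (q : ι) => div_nonneg (hw _) (hc _))]
    rw [enn_prod_rpow _ _ _ (fun p => Finset.sum_nonneg fun q _ => div_nonneg (hw _) (hc _))]
    simp_rw [← Finset.sum_div]
    congr 2
    simp only [ww]
    simp_rw [fun p q => DD_sq_swap23 a p q r, fun p q => DD_sq_swap12 a p r q, ← Finset.sum_div]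
    rw [sum_DD_qr a h]
    ring
  rw [f1, f2, f3, ← Finset.prod_mul_distrib, ← Finset.prod_mul_distrib]
  refine Finset.prod_congr rfl fun i _ => ?_
  by_cases hi : cc a i = 0
  · rw [hG i hi]
    simp
  · have e : cc a i / 3 / cc a i = 1 / 3 := by
      field_simp
    rw [e, ← ENNReal.rpow_add_of_nonneg _ _ (by norm_num) (by norm_num),
      ← ENNReal.rpow_add_of_nonneg _ _ (by norm_num) (by norm_num)]
    norm_num

end alg

theorem lint_prod3 (f : Fin 3 → ℝ → ℝ) (hf0 : ∀ k s, 0 ≤ f k s) (hfm : ∀ k, Measurable (f k))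
    (hfi : ∀ k, ∫⁻ s, ENNReal.ofReal (f k s) ≠ ⊤) :
    ∫⁻ η : Fin 3 → ℝ, ∏ k, ENNReal.ofReal (f k (η k)) =
      ∏ k, ∫⁻ s, ENNReal.ofReal (f k s) := by
  have hint : ∀ k, Integrable (f k) := by
    intro k
    refine ⟨(hfm k).aestronglyMeasurable, ?_⟩
    rw [hasFiniteIntegral_iff_ofReal (Filter.Eventually.of_forall (hf0 k))]
    exact lt_top_iff_ne_top.2 (hfi k)
  have h1 := integral_fintype_prod_volume_eq_prod (𝕜 := ℝ) f
  have h2 : Integrable fun η : Fin 3 → ℝ => ∏ k, f k (η k) := Integrable.fintype_prod hint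
  have h3 : ∀ η : Fin 3 → ℝ, ∏ k, ENNReal.ofReal (f k (η k)) =
      ENNReal.ofReal (∏ k, f k (η k)) := by
    intro η
    rw [ENNReal.ofReal_prod_of_nonneg fun k _ => hf0 k _]
  simp_rw [h3]
  rw [← ofReal_integral_eq_lintegral_ofReal h2
    (Filter.Eventually.of_forall fun η => Finset.prod_nonneg fun k _ => hf0 k _), h1,
    ENNReal.ofReal_prod_of_nonneg fun k _ => integral_nonneg (hf0 k)]
  refine Finset.prod_congr rfl fun k _ => ?_
  rw [ofReal_integral_eq_lintegral_ofReal (hint k) (Filter.Eventually.of_forall (hf0 k))]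

theorem lint_T (μ : Measure ℝ) [IsProbabilityMeasure μ] (C : ℝ) (hC : 0 < C)
    (hCF : ∀ p : ℝ, 2 ≤ p →
      ∫⁻ t : ℝ, ENNReal.ofReal (‖charFun μ t‖ ^ p) ≤ ENNReal.ofReal (C / Real.sqrt p))
    (M : Matrix (Fin 3) (Fin 3) ℝ) (hM : M.det ≠ 0) (c : Fin 3 → ℝ) (hc0 : ∀ m, 0 < c m)
    (hc1 : ∀ m, c m ≤ 1 / 2) :
    ∫⁻ ξ : Fin 3 → ℝ, ∏ m, ENNReal.ofReal (‖charFun μ ((M *ᵥ ξ) m)‖ ^ (1 / c m)) ≤
      ENNReal.ofReal (|M.det|⁻¹ * (C ^ 3 * Real.sqrt (∏ m, c m))) := by
  have hm : Measurable (charFun μ) := measurable_charFun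
  have hF : Measurable fun η : Fin 3 → ℝ =>
      ∏ m, ENNReal.ofReal (‖charFun μ (η m)‖ ^ (1 / c m)) := by fun_prop
  have h1 : ∫⁻ ξ : Fin 3 → ℝ, ∏ m, ENNReal.ofReal (‖charFun μ ((M *ᵥ ξ) m)‖ ^ (1 / c m)) =
      ∫⁻ η : Fin 3 → ℝ, ∏ m, ENNReal.ofReal (‖charFun μ (η m)‖ ^ (1 / c m))
        ∂(Measure.map (toLin' M) volume) := by
    rw [lintegral_map hF (LinearMap.continuous_on_pi (toLin' M)).measurable]
    rfl
  have hb : ∀ m, ∫⁻ s, ENNReal.ofReal (‖charFun μ s‖ ^ (1 / c m)) ≤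
      ENNReal.ofReal (C * Real.sqrt (c m)) := by
    intro m
    have h2 : 2 ≤ 1 / c m := by
      rw [le_div_iff₀ (hc0 m)]
      linarith [hc1 m]
    refine (hCF _ h2).trans (le_of_eq ?_)
    congr 1
    rw [one_div, Real.sqrt_inv]
    field_simp
  rw [h1, Real.map_matrix_volume_pi_eq_smul_volume_pi hM, lintegral_smul_measure, smul_eq_mul,
    lint_prod3 (fun m s => ‖charFun μ s‖ ^ (1 / c m)) (fun m s => by positivity)
      (fun m => by fun_prop) (fun m => ne_top_of_le_ne_top ENNReal.ofReal_ne_top (hb m)),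
    ENNReal.ofReal_mul (by positivity), abs_inv]
  refine mul_le_mul_right ?_ _
  refine (Finset.prod_le_prod' fun m _ => hb m).trans (le_of_eq ?_)
  rw [← ENNReal.ofReal_prod_of_nonneg fun m _ => by positivity]
  congr 1
  rw [Finset.prod_mul_distrib, Finset.prod_const, Real.sqrt_prod _ fun m _ => (hc0 m).le]
  rfl

theorem t_F3 (h : S_CF2) : S_F3 := by
  intro μ K hN
  obtain ⟨C, hC, hCF⟩ := h μ K hN
  have hprob := hN.prob
  refine ⟨Real.exp (3 * C + 33 / 12), Real.exp_pos _, ?_⟩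
  intro ι _ a hON hsmall
  have hm : Measurable (charFun μ) := measurable_charFun
  set G : ι → (Fin 3 → ℝ) → ℝ≥0∞ := fun i ξ => ENNReal.ofReal ‖charFun μ (∑ k, ξ k * a k i)‖
    with hG
  have hG1 : ∀ ξ i, cc a i = 0 → G i ξ = 1 := by
    intro ξ i hi
    have h0 : ∀ k, a k i = 0 := by
      intro k
      have h1 := (Finset.sum_eq_zero_iff_of_nonneg (fun k _ => sq_nonneg (a k i))).1 hi k
        (Finset.mem_univ k)
      exact pow_eq_zero_iff (two_ne_zero) |>.1 h1
    simp only [hG]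
    simp [h0]
  have hGm : ∀ i, Measurable (G i) := by
    intro i
    simp only [hG]
    fun_prop
  set f : ι × ι × ι → (Fin 3 → ℝ) → ℝ≥0∞ := fun T ξ =>
    G T.1 ξ ^ (1 / cc a T.1) * G T.2.1 ξ ^ (1 / cc a T.2.1) * G T.2.2 ξ ^ (1 / cc a T.2.2) with hf
  have hfm : ∀ T, Measurable (f T) := by
    intro T
    simp only [hf]
    exact (((hGm _).pow_const _).mul ((hGm _).pow_const _)).mul ((hGm _).pow_const _)
  have hid : ∀ ξ : Fin 3 → ℝ, ∏ i, G i ξ = ∏ T, f T ξ ^ ww a T := fun ξ =>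
    prod_identity a hON (fun i => G i ξ) (hG1 ξ)
  have hH : ∫⁻ ξ : Fin 3 → ℝ, ∏ i, G i ξ ≤ ∏ T, (∫⁻ ξ, f T ξ) ^ ww a T := by
    simp_rw [hid]
    exact ENNReal.lintegral_prod_norm_pow_le Finset.univ (fun T _ => (hfm T).aemeasurable)
      (sum_ww a hON) (fun T _ => ww_nonneg a T)
  refine hH.trans ?_
  have hT : ∀ T : ι × ι × ι, (∫⁻ ξ, f T ξ) ^ ww a T ≤
      ENNReal.ofReal (Real.exp (3 * C * ww a T + (DD a T.1 T.2.1 T.2.2 ^ 2 +
        cc a T.1 * (cc a T.2.1 * cc a T.2.2)) / 12)) := by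
    rintro ⟨p, q, r⟩
    simp only
    have hcp := cc_nonneg a p
    have hcq := cc_nonneg a q
    have hcr := cc_nonneg a r
    by_cases hD : DD a p q r = 0
    · have hw0 : ww a (p, q, r) = 0 := by
        simp only [ww]
        rw [hD]
        norm_num
      rw [hw0, ENNReal.rpow_zero, ← ENNReal.ofReal_one]
      apply ENNReal.ofReal_le_ofReal
      apply Real.one_le_exp
      rw [hD]
      positivity
    · have hcpos : ∀ i, (i = p ∨ i = q ∨ i = r) → 0 < cc a i := by
        intro i hi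
        rcases (cc_nonneg a i).lt_or_eq with h1 | h1
        · exact h1
        · exfalso
          apply hD
          have h2 := cc_eq a i
          rw [← h1] at h2
          have h3 : a 0 i = 0 := by nlinarith [sq_nonneg (a 0 i), sq_nonneg (a 1 i), sq_nonneg (a 2 i)]
          have h4 : a 1 i = 0 := by nlinarith [sq_nonneg (a 0 i), sq_nonneg (a 1 i), sq_nonneg (a 2 i)]
          have h5 : a 2 i = 0 := by nlinarith [sq_nonneg (a 0 i), sq_nonneg (a 1 i), sq_nonneg (a 2 i)]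
          unfold DD
          rcases hi with hi | hi | hi
          · subst hi
            rw [h3, h4, h5]
            ring
          · subst hi
            rw [h3, h4, h5]
            ring
          · subst hi
            rw [h3, h4, h5]
            ring
      have hp := hcpos p (Or.inl rfl)
      have hq := hcpos q (Or.inr (Or.inl rfl))
      have hr := hcpos r (Or.inr (Or.inr rfl))
      have h1 : ∫⁻ ξ, f (p, q, r) ξ ≤ ENNReal.ofReal (|DD a p q r|⁻¹ *
          (C ^ 3 * Real.sqrt (cc a p * cc a q * cc a r))) := by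
        have h2 := lint_T μ C hC hCF (MM a p q r) (by rwa [det_MM])
          ![cc a p, cc a q, cc a r] (by
            intro m
            fin_cases m
            · exact hp
            · exact hq
            · exact hr) (by
            intro m
            fin_cases m
            · exact hsmall p
            · exact hsmall q
            · exact hsmall r)
        rw [det_MM, Fin.prod_univ_three] at h2
        refine le_trans (le_of_eq ?_) h2
        congr 1
        funext ξ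
        simp only [hf, hG]
        rw [Fin.prod_univ_three, ENNReal.ofReal_rpow_of_nonneg (norm_nonneg _) (by positivity),
          ENNReal.ofReal_rpow_of_nonneg (norm_nonneg _) (by positivity),
          ENNReal.ofReal_rpow_of_nonneg (norm_nonneg _) (by positivity)]
        have e : ∀ i, ∑ k, ξ k * a k i = a 0 i * ξ 0 + a 1 i * ξ 1 + a 2 i * ξ 2 := by
          intro i
          rw [Fin.sum_univ_three]
          ring
        have e0 : (MM a p q r *ᵥ ξ) 0 = a 0 p * ξ 0 + a 1 p * ξ 1 + a 2 p * ξ 2 := by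
          simp [MM, Matrix.mulVec, dotProduct, Fin.sum_univ_three]
        have e1 : (MM a p q r *ᵥ ξ) 1 = a 0 q * ξ 0 + a 1 q * ξ 1 + a 2 q * ξ 2 := by
          simp [MM, Matrix.mulVec, dotProduct, Fin.sum_univ_three]
        have e2 : (MM a p q r *ᵥ ξ) 2 = a 0 r * ξ 0 + a 1 r * ξ 1 + a 2 r * ξ 2 := by
          simp [MM, Matrix.mulVec, dotProduct, Fin.sum_univ_three]
        rw [e0, e1, e2, e, e, e]
        rfl
      have hw := ww_nonneg a (p, q, r)
      have hD0 : 0 < |DD a p q r| := abs_pos.2 hD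
      set s := Real.sqrt (cc a p * cc a q * cc a r) with hs
      have hs0 : 0 < s := Real.sqrt_pos.2 (by positivity)
      have hs2 : s ^ 2 = cc a p * cc a q * cc a r := Real.sq_sqrt (by positivity)
      refine (ENNReal.rpow_le_rpow h1 hw).trans ?_
      rw [ENNReal.ofReal_rpow_of_nonneg (by positivity) hw]
      apply ENNReal.ofReal_le_ofReal
      have h2 : |DD a p q r|⁻¹ * (C ^ 3 * s) ≤ Real.exp (3 * C + s / |DD a p q r|) := by
        have h3 : C ≤ Real.exp C := by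
          have := Real.add_one_le_exp C
          linarith
        have h4 : s / |DD a p q r| ≤ Real.exp (s / |DD a p q r|) := by
          have := Real.add_one_le_exp (s / |DD a p q r|)
          linarith
        have h5 : C ^ 3 ≤ Real.exp (3 * C) := by
          calc C ^ 3 ≤ Real.exp C ^ 3 := pow_le_pow_left₀ hC.le h3 3
            _ = Real.exp (3 * C) := by
              rw [← Real.exp_nat_mul]
              norm_num
        calc |DD a p q r|⁻¹ * (C ^ 3 * s) = C ^ 3 * (s / |DD a p q r|) := by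
              rw [div_eq_mul_inv]
              ring
          _ ≤ Real.exp (3 * C) * Real.exp (s / |DD a p q r|) := by
              apply mul_le_mul h5 h4 (by positivity) (Real.exp_nonneg _)
          _ = _ := by rw [← Real.exp_add]
      refine (Real.rpow_le_rpow (by positivity) h2 hw).trans ?_
      rw [← Real.exp_mul]
      apply Real.exp_le_exp.2
      rw [add_mul]
      have h3 : s / |DD a p q r| * ww a (p, q, r) ≤ (DD a p q r ^ 2 +
          cc a p * (cc a q * cc a r)) / 12 := by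
        have h4 : s / |DD a p q r| * ww a (p, q, r) = s * |DD a p q r| / 6 := by
          simp only [ww]
          rw [← sq_abs (DD a p q r)]
          field_simp
        rw [h4, ← mul_assoc (cc a p), ← hs2, ← sq_abs (DD a p q r)]
        nlinarith [sq_nonneg (s - |DD a p q r|)]
      linarith
  refine (Finset.prod_le_prod' fun T _ => hT T).trans (le_of_eq ?_)
  rw [← ENNReal.ofReal_prod_of_nonneg fun T _ => Real.exp_nonneg _, ← Real.exp_sum]
  congr 2
  rw [Finset.sum_add_distrib, ← Finset.mul_sum, sum_ww a hON, ← Finset.sum_div,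
    Finset.sum_add_distrib]
  have h1 : ∑ T : ι × ι × ι, DD a T.1 T.2.1 T.2.2 ^ 2 = 6 := by
    have h2 := sum_ww a hON
    unfold ww at h2
    rw [← Finset.sum_div] at h2
    linarith
  have h2 : ∑ T : ι × ι × ι, cc a T.1 * (cc a T.2.1 * cc a T.2.2) = 27 := by
    rw [Fintype.sum_prod_type]
    simp_rw [Fintype.sum_prod_type]
    simp only [← Finset.mul_sum, ← Finset.sum_mul]
    rw [sum_cc a hON]
    norm_num
  rw [h1, h2]
  norm_num

end Pool.Agent.W880.SV
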